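import Pool.Agent.H73.PCG.Red

/-!
# Generalized PCG recognition is NP-hard

Generalized PCG recognition is NP-hard. This answers Q2.

Proof. Reduction from 3SAT. All gadgets are quadruples: four vertices indexed by two Booleans, where
two of them form an edge if both coordinates differ and a forbidden pair (a pair of `S`) if exactly
one differs. By the four-point inequality
`d(a,b) + d(c,d) ≤ max(d(a,c) + d(b,d), d(a,d) + d(b,c))` of trees

* in each quadruple one of the four forbidden pairs is *far* (at distance more than `dmax`);
* two pairs such that all four connections between them are edges are not both far.

Each variable `x` has a quadruple with coordinates (side, letter), and for each side a guard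
quadruple joined to the two vertices of that side: so the two vertices of a side are not far, and
for one of the two letters the pair of that letter is far. In the quadruple of the clause
`l₁ ∨ l₂ ∨ l₃` the two rows stand for `l₁, l₂` and the two columns for `l₁, l₃`, and each vertex is
joined to the two variable vertices of the letter that makes the literal of its row (column) false.
A far pair of the quadruple is in a row or column, and its literal is then true. Conversely, a
satisfying assignment gives a tree, with `dmin = 20` and `dmax = 40`.
-/

set_option autoImplicit false

namespace Pool.Agent.Results.MP_9390ab_lc.GeneralizedPCGHard

open Pool.Agent.NPC Pool.Agent.NPC.R671 Pool.Agent.H73.PCG SimpleGraph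

/-- Generalized PCG recognition is NP-hard (first conjunct). The second conjunct says that for each
language in NP there is a polynomial-time many-one reduction to it, which always produces the
adjacency matrices of a graph `G` and of a set `S` of non-edges of `G`. -/
theorem result :
    NPHardP GenPCG ∧
    ∀ L : Set (List Bool), InNP L → ∃ f : List Bool → List Bool, PolyTime f ∧
      ∀ x, ∃ (n : ℕ) (G S : SimpleGraph (Fin n)),
        f x = bits (R671.adjMatrix G, R671.adjMatrix S) ∧
        (∀ u v, S.Adj u v → ¬ G.Adj u v) ∧ (x ∈ L ↔ HasPCG G S) :=
  ⟨npHard_genPCG, hard_explicit⟩

end Pool.Agent.Results.MP_9390ab_lc.GeneralizedPCGHard
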